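import Mathlib
import Pool.Agent.R958.Stub

/-!
# Stable multi-matchings percolate for every proportion `p < 1` of points of degree one

There is a law `ν` on `{2, 3, …}` such that for every dimension `d ≥ 1` and every `p < 1` the
stable multi-matching with degree law `p δ_1 + (1 - p) ν` has an infinite component almost surely.
-/

set_option autoImplicit false
open MeasureTheory ProbabilityTheory
open scoped ENNReal NNReal

namespace Pool.Agent.Results.MP_bae357_pr.DegreeOnePercolates

open Pool.Agent.R958.Stub

/-- `G` is a stable multi-matching of the points `x 0, x 1, …`, where `x i` has `D i` stubs: every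
`x i` has at most `D i` edges, and there are no two distinct nonadjacent points each of which is
willing to link to the other. -/
def IsStableMultiMatching {d : ℕ} (x : ℕ → EuclideanSpace ℝ (Fin d)) (D : ℕ → ℕ)
    (G : SimpleGraph ℕ) : Prop :=
  (∀ i, (G.neighborSet i).encard ≤ D i) ∧
    ∀ i j, i ≠ j → ¬ G.Adj i j → ¬ (Willing x D G i j ∧ Willing x D G j i)

/-- For the Poisson process of intensity one on `ℝ^d` with independent numbers of stubs with
law `μ`, almost surely every stable multi-matching has an infinite component. -/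
def AlwaysPercolates (d : ℕ) (μ : Measure ℕ) : Prop :=
  ∀ (Ω : Type) [MeasurableSpace Ω] (P : Measure Ω) [IsProbabilityMeasure P]
    (X : ℕ → Ω → EuclideanSpace ℝ (Fin d)) (D : ℕ → Ω → ℕ), IsMarkedPoisson P X D μ →
    ∀ᵐ ω ∂P, ∀ G : SimpleGraph ℕ,
      IsStableMultiMatching (fun n => X n ω) (fun n => D n ω) G →
      ∃ C : G.ConnectedComponent, C.supp.Infinite

lemma of_tail (d : ℕ) (hd : 1 ≤ d) (μ : Measure ℕ) [IsProbabilityMeasure μ] (c : ℝ) (hc : 0 < c)
    (hμ : ∀ n : ℕ, 1 ≤ n → c / √n ≤ (μ (Set.Ici n)).toReal) : AlwaysPercolates d μ := by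
  intro Ω _ P _ X D h
  have : Nonempty (Fin d) := ⟨⟨0, hd⟩⟩
  filter_upwards [heavy_percolates h hc hμ] with ω hω G hG
  exact hω G hG.2

/-- There is a law `ν` on `{2, 3, …}` such that in every dimension `d ≥ 1` and for every `p < 1`
the stable multi-matching with degree law `p δ_1 + (1 - p) ν` almost surely has an infinite
component. -/
theorem result :
    ∃ ν : Measure ℕ, IsProbabilityMeasure ν ∧ ν {n | n < 2} = 0 ∧
      ∀ d : ℕ, 1 ≤ d → ∀ p : ℝ, 0 ≤ p → p < 1 →
        AlwaysPercolates d (ENNReal.ofReal p • Measure.dirac 1 + ENNReal.ofReal (1 - p) • ν) := by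
  refine ⟨heavy, inferInstance, heavy_small, fun d hd p hp0 hp1 => ?_⟩
  have hpr := mixLaw_prob hp0 hp1.le heavy
  exact @of_tail d hd (mixLaw p heavy) hpr ((1 - p) * (1 / 4)) (by nlinarith)
    (mixLaw_tail hp0 hp1 heavy_tail)

end Pool.Agent.Results.MP_bae357_pr.DegreeOnePercolates
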